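import Mathlib

/-!
Two primitive Pythagorean triangles with the same area: the four parts
`(a, b, a + b, a + 2 b)` with `a = m - n`, `b = n`.
-/

namespace Pool.Agent.H83.PT

/-- the parts `(a, b)` of a primitive Pythagorean triangle -/
structure Tri (a b : ℕ) : Prop where
  ha : 0 < a
  hb : 0 < b
  odd : a % 2 = 1
  cop : a.Coprime b

/-- the area in terms of the parts -/
def ar (a b : ℕ) : ℕ := a * b * (a + b) * (a + 2 * b)

lemma ar_pos {a b : ℕ} (h : Tri a b) : 0 < ar a b := by
  have h1 := h.ha
  have h2 := h.hb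
  unfold ar
  positivity

lemma cop_ac {a b : ℕ} (h : Tri a b) : a.Coprime (a + b) := by
  have := h.cop
  simpa [Nat.coprime_self_add_right] using this

lemma cop_bc {a b : ℕ} (h : Tri a b) : b.Coprime (a + b) := by
  have := h.cop.symm
  simpa [Nat.coprime_add_self_right] using this

lemma cop_ad {a b : ℕ} (h : Tri a b) : a.Coprime (a + 2 * b) := by
  have h1 : a.Coprime 2 := by
    rw [Nat.coprime_two_right, Nat.odd_iff]
    exact h.odd
  have h2 : a.Coprime (2 * b) := h1.mul_right h.cop
  simpa [Nat.coprime_self_add_right] using h2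

lemma cop_bd {a b : ℕ} (h : Tri a b) : b.Coprime (a + 2 * b) := by
  have := h.cop.symm
  simpa [Nat.coprime_add_mul_right_right] using this

lemma cop_cd {a b : ℕ} (h : Tri a b) : (a + b).Coprime (a + 2 * b) := by
  have h1 : a + 2 * b = (a + b) + b := by ring
  rw [h1, Nat.coprime_self_add_right]
  exact (cop_bc h).symm

/-- a number with at most one prime factor which divides a product of four pairwise coprime
numbers divides one of them -/
lemma pp {v x y z w : ℕ} (h0 : 0 < v) (hv : v.primeFactors.card ≤ 1) (hd : v ∣ x * y * z * w)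
    (xy : x.Coprime y) (xz : x.Coprime z) (xw : x.Coprime w) (yz : y.Coprime z)
    (yw : y.Coprime w) (zw : z.Coprime w) : v ∣ x ∨ v ∣ y ∨ v ∣ z ∨ v ∣ w := by
  rcases Nat.lt_or_ge v.primeFactors.card 1 with h | h
  · have h1 : v.primeFactors = ∅ := by
      rw [← Finset.card_eq_zero]
      omega
    rw [Nat.primeFactors_eq_empty] at h1
    have h2 : v = 1 := by omega
    left
    rw [h2]
    exact one_dvd _
  · have hp : IsPrimePow v := isPrimePow_iff_card_primeFactors_eq_one.mpr (by omega)
    have c1 : (x * y * z).Coprime w := (xw.mul_left yw).mul_left zw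
    have c2 : (x * y).Coprime z := xz.mul_left yz
    rcases (c1.isPrimePow_dvd_mul hp).mp hd with h1 | h1
    · rcases (c2.isPrimePow_dvd_mul hp).mp h1 with h2 | h2
      · rcases (xy.isPrimePow_dvd_mul hp).mp h2 with h3 | h3
        · exact Or.inl h3
        · exact Or.inr (Or.inl h3)
      · exact Or.inr (Or.inr (Or.inl h2))
    · exact Or.inr (Or.inr (Or.inr h1))

lemma key {a b v : ℕ} (h : Tri a b) (h0 : 0 < v) (hv : v.primeFactors.card ≤ 1)
    (hd : v ∣ ar a b) : v ∣ a ∨ v ∣ b ∨ v ∣ a + b ∨ v ∣ a + 2 * b :=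
  pp h0 hv hd h.cop (cop_ac h) (cop_ad h) (cop_bc h) (cop_bd h) (cop_cd h)

lemma card_ar {a b : ℕ} (h : Tri a b) : (ar a b).primeFactors.card =
    a.primeFactors.card + b.primeFactors.card + (a + b).primeFactors.card
      + (a + 2 * b).primeFactors.card := by
  have c1 : (a * b * (a + b)).Coprime (a + 2 * b) :=
    ((cop_ad h).mul_left (cop_bd h)).mul_left (cop_cd h)
  have c2 : (a * b).Coprime (a + b) := (cop_ac h).mul_left (cop_bc h)
  unfold ar
  rw [c1.primeFactors_mul, Finset.card_union_of_disjoint c1.disjoint_primeFactors,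
    c2.primeFactors_mul, Finset.card_union_of_disjoint c2.disjoint_primeFactors,
    h.cop.primeFactors_mul, Finset.card_union_of_disjoint h.cop.disjoint_primeFactors]

lemma card_pos {v : ℕ} (h : 1 < v) : 1 ≤ v.primeFactors.card := by
  have h1 : v.primeFactors.Nonempty := Nat.nonempty_primeFactors.mpr h
  exact Finset.card_pos.mpr h1

lemma card_one : (1 : ℕ).primeFactors.card = 0 := by simp

lemma eq_one_of_card {v : ℕ} (h0 : 0 < v) (h : v.primeFactors.card = 0) : v = 1 := by
  by_contra h1
  have := card_pos (v := v) (by omega)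
  omega

end Pool.Agent.H83.PT
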