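import Mathlib

/-!
The quadratic Diophantine equations which remain in the classification.
-/

namespace Pool.Agent.H83.PT

lemma e1 {a b : ℕ} (ha : a % 2 = 1) (hb : 0 < b)
    (h : a * b * (a + b) = (a + 2 * b + 1) * (a + 2 * b + 2)) :
    (a = 5 ∧ b = 7) ∨ (a = 7 ∧ b = 3) := by
  rcases Nat.lt_or_ge a 7 with h7 | h7
  · have : a = 1 ∨ a = 3 ∨ a = 5 := by omega
    rcases this with rfl | rfl | rfl
    · nlinarith
    · nlinarith
    · have h1 : b ≤ 7 := by nlinarith
      interval_cases b <;> omega
  · rcases Nat.lt_or_ge b 4 with h4 | h4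
    · interval_cases b
      · nlinarith
      · have h1 : a ≤ 10 := by nlinarith
        interval_cases a <;> omega
      · have h1 : a ≤ 7 := by nlinarith
        interval_cases a <;> omega
    · obtain ⟨u, rfl⟩ := Nat.exists_eq_add_of_le h7
      obtain ⟨v, rfl⟩ := Nat.exists_eq_add_of_le h4
      exfalso
      have h1 : (7 + u) * (4 + v) * (7 + u + (4 + v))
          = (7 + u + 2 * (4 + v) + 1) * (7 + u + 2 * (4 + v) + 2)
            + (36 + 39 * u + 39 * v + 18 * (u * v) + 3 * (v * v) + 3 * (u * u)
              + u * u * v + u * v * v) := by ring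
      omega

lemma e2 {a b : ℕ} (ha : a % 2 = 1) (hb : 0 < b)
    (h : a * b * (a + 2 * b) = (a + b + 1) * (2 * (a + b) + 1)) : False := by
  rcases Nat.lt_or_ge a 5 with h7 | h7
  · have : a = 1 ∨ a = 3 := by omega
    rcases this with rfl | rfl
    · nlinarith
    · have h1 : b ≤ 4 := by nlinarith
      interval_cases b <;> omega
  · rcases Nat.lt_or_ge b 3 with h4 | h4
    · interval_cases b
      · nlinarith
      · nlinarith
    · obtain ⟨u, rfl⟩ := Nat.exists_eq_add_of_le h7
      obtain ⟨v, rfl⟩ := Nat.exists_eq_add_of_le h4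
      nlinarith [Nat.zero_le (u * v), Nat.zero_le (u * u), Nat.zero_le (v * v),
        Nat.zero_le (u * u * v), Nat.zero_le (u * v * v)]

lemma e3 {a b : ℕ} (ha : a % 2 = 1) (hb : 0 < b)
    (h : a * b * (a + b) = (a + 2 * b + 1) * (2 * (a + 2 * b) + 1)) : False := by
  rcases Nat.lt_or_ge a 13 with h7 | h7
  · have : a = 1 ∨ a = 3 ∨ a = 5 ∨ a = 7 ∨ a = 9 ∨ a = 11 := by omega
    rcases this with rfl | rfl | rfl | rfl | rfl | rfl
    · nlinarith
    · nlinarith
    · nlinarith
    · nlinarith
    · have h1 : b ≤ 13 := by nlinarith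
      interval_cases b <;> omega
    · have h1 : b ≤ 7 := by nlinarith
      interval_cases b <;> omega
  · rcases Nat.lt_or_ge b 6 with h4 | h4
    · interval_cases b
      · nlinarith
      · nlinarith
      · have h1 : a ≤ 23 := by nlinarith
        interval_cases a <;> omega
      · have h1 : a ≤ 15 := by nlinarith
        interval_cases a <;> omega
      · have h1 : a ≤ 13 := by nlinarith
        interval_cases a <;> omega
    · obtain ⟨u, rfl⟩ := Nat.exists_eq_add_of_le h7
      obtain ⟨v, rfl⟩ := Nat.exists_eq_add_of_le h4
      nlinarith [Nat.zero_le (u * v), Nat.zero_le (u * u), Nat.zero_le (v * v),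
        Nat.zero_le (u * u * v), Nat.zero_le (u * v * v)]

lemma e4 {a b d : ℕ} (ha : a % 2 = 1) (hb : 0 < b) (hd : a + 2 * b = 1 + d)
    (h : a * b * (a + b) = d * (1 + 2 * d)) : False := by
  rcases Nat.lt_or_ge a 11 with h7 | h7
  · have : a = 1 ∨ a = 3 ∨ a = 5 ∨ a = 7 ∨ a = 9 := by omega
    rcases this with rfl | rfl | rfl | rfl | rfl
    · have : d = 2 * b := by omega
      subst this
      nlinarith
    · have : d = 2 * b + 2 := by omega
      subst this
      nlinarith
    · have : d = 2 * b + 4 := by omega
      subst this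
      nlinarith
    · have : d = 2 * b + 6 := by omega
      subst this
      nlinarith
    · have : d = 2 * b + 8 := by omega
      subst this
      have h1 : b ≤ 8 := by nlinarith
      interval_cases b <;> omega
  · rcases Nat.lt_or_ge b 6 with h4 | h4
    · interval_cases b
      · have : d = a + 1 := by omega
        subst this
        nlinarith
      · have : d = a + 3 := by omega
        subst this
        nlinarith
      · have : d = a + 5 := by omega
        subst this
        have h1 : a ≤ 16 := by nlinarith
        interval_cases a <;> omega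
      · have : d = a + 7 := by omega
        subst this
        have h1 : a ≤ 12 := by nlinarith
        interval_cases a <;> omega
      · have : d = a + 9 := by omega
        subst this
        nlinarith
    · obtain ⟨u, rfl⟩ := Nat.exists_eq_add_of_le h7
      obtain ⟨v, rfl⟩ := Nat.exists_eq_add_of_le h4
      have : d = u + 2 * v + 22 := by omega
      subst this
      nlinarith [Nat.zero_le (u * v), Nat.zero_le (u * u), Nat.zero_le (v * v),
        Nat.zero_le (u * u * v), Nat.zero_le (u * v * v)]

end Pool.Agent.H83.PT
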