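import Pool.Agent.H83.PT.Pair

/-!
Classification of the pairs of primitive Pythagorean triangles of the same area with at most
five prime factors.
-/

namespace Pool.Agent.H83.PT

/-- a positive multiple smaller than the double is equal -/
lemma eq_of_dvd {v x : ℕ} (hx : 0 < x) (hlt : x < 2 * v) (hd : v ∣ x) : x = v := by
  obtain ⟨s, hs⟩ := hd
  rcases Nat.lt_or_ge s 2 with s2 | s2
  · rcases Nat.lt_or_ge s 1 with s0 | s0
    · have : s = 0 := by omega
      subst this
      omega
    · have : s = 1 := by omega
      subst this
      omega
  · exfalso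
    have : v * 2 ≤ v * s := Nat.mul_le_mul_left v s2
    omega

lemma lt_case {a b c d : ℕ} (h : Tri a b) (h' : Tri c d) (he : ar a b = ar c d)
    (hlt : a + 2 * b < c + 2 * d) (h5 : (ar c d).primeFactors.card ≤ 5) :
    ar c d = 2730 ∨ ar c d = 7980 := by
  have hb := h.hb
  have ha := h.ha
  have hc := h'.ha
  have hd := h'.hb
  have ho := h.odd
  have ho' := h'.odd
  have hsum := card_ar h'
  have c1 : c ∣ ar a b := by
    rw [he]; unfold ar
    exact Dvd.intro (d * (c + d) * (c + 2 * d)) (by ring)
  have c2 : d ∣ ar a b := by
    rw [he]; unfold ar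
    exact Dvd.intro (c * (c + d) * (c + 2 * d)) (by ring)
  have c3 : (c + d) ∣ ar a b := by
    rw [he]; unfold ar
    exact Dvd.intro (c * d * (c + 2 * d)) (by ring)
  have c4 : (c + 2 * d) ∣ ar a b := by
    rw [he]; unfold ar
    exact Dvd.intro (c * d * (c + d)) (by ring)
  -- the last part has two primes
  have w4 : 2 ≤ (c + 2 * d).primeFactors.card := by
    by_contra hw
    rcases key h (by omega) (by omega) c4 with k | k | k | k
    · have := Nat.le_of_dvd ha k
      omega
    · have := Nat.le_of_dvd hb k
      omega
    · have := Nat.le_of_dvd (by omega) k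
      omega
    · have := Nat.le_of_dvd (by omega) k
      omega
  have p1 : c = 1 ∨ 1 ≤ c.primeFactors.card := by
    rcases Nat.lt_or_ge 1 c with k | k
    · exact Or.inr (card_pos k)
    · left
      omega
  have p2 : d = 1 ∨ 1 ≤ d.primeFactors.card := by
    rcases Nat.lt_or_ge 1 d with k | k
    · exact Or.inr (card_pos k)
    · left
      omega
  have p3 : 1 ≤ (c + d).primeFactors.card := card_pos (by omega)
  rcases Nat.lt_or_ge (c + d).primeFactors.card 2 with w3 | w3
  · -- the third part is shared
    exfalso
    have hw : c = 1 ∨ d = 1 ∨ (c.primeFactors.card ≤ 1 ∧ d.primeFactors.card ≤ 1) := by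
      rcases p1 with p1 | p1
      · exact Or.inl p1
      · rcases p2 with p2 | p2
        · exact Or.inr (Or.inl p2)
        · right; right
          constructor <;> omega
    rcases key h (by omega) (by omega) c3 with k | k | k | k
    · have h1 := eq_of_dvd ha (by omega) k
      exact case_a h h' he h1 hlt hw
    · have h1 := eq_of_dvd hb (by omega) k
      omega
    · have h1 := eq_of_dvd (by omega) (by omega) k
      exact same_c h h' he h1 hlt
    · have h1 := eq_of_dvd (by omega) (by omega) k
      exact case_d h h' he h1 hw
  · -- one of the first two parts is 1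
    rcases p2 with p2 | p2
    · -- d = 1
      subst p2
      have hc1 : c.primeFactors.card ≤ 1 := by omega
      have hcle : c ≤ a + 2 * b := by
        rcases key h hc hc1 c1 with k | k | k | k
        · have := Nat.le_of_dvd ha k
          omega
        · have := Nat.le_of_dvd hb k
          omega
        · have := Nat.le_of_dvd (by omega) k
          omega
        · exact Nat.le_of_dvd (by omega) k
      have hc2 : a + 2 * b = c := by omega
      have e1 : a * b * (a + b) = (a + 2 * b + 1) * (a + 2 * b + 2) := by
        have hp : 0 < a + 2 * b := by omega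
        apply Nat.eq_of_mul_eq_mul_left hp
        calc (a + 2 * b) * (a * b * (a + b)) = ar a b := by unfold ar; ring
          _ = ar c 1 := he
          _ = c * ((c + 1) * (c + 2)) := by unfold ar; ring
          _ = (a + 2 * b) * ((a + 2 * b + 1) * (a + 2 * b + 2)) := by rw [hc2]
      rcases Pool.Agent.H83.PT.e1 ho hb e1 with ⟨x, y⟩ | ⟨x, y⟩
      · right
        rw [← he, x, y]
        rfl
      · left
        rw [← he, x, y]
        rfl
    · -- c = 1
      exfalso
      have hc0 : c = 1 := by
        rcases p1 with p1 | p1
        · exact p1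
        · omega
      subst hc0
      have hd1 : d.primeFactors.card ≤ 1 := by omega
      have e0 : a * b * (a + b) * (a + 2 * b) = d * ((d + 1) * (2 * d + 1)) := by
        calc a * b * (a + b) * (a + 2 * b) = ar a b := by unfold ar; ring
          _ = ar 1 d := he
          _ = d * ((d + 1) * (2 * d + 1)) := by unfold ar; ring
      rcases key h hd hd1 c2 with k | k | k | k
      · have h1 := eq_of_dvd ha (by omega) k
        subst h1
        have e1 : b * (a + b) * (a + 2 * b) = (a + 1) * (2 * a + 1) := by
          apply Nat.eq_of_mul_eq_mul_left ha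
          rw [← e0]; ring
        rcases Nat.lt_or_ge b 2 with hb1 | hb1
        · have : b = 1 := by omega
          subst this
          nlinarith
        · obtain ⟨v, rfl⟩ := Nat.exists_eq_add_of_le hb1
          nlinarith [Nat.zero_le (v * a), Nat.zero_le (v * v), Nat.zero_le (v * v * v),
            Nat.zero_le (a * a), Nat.zero_le (v * a * a), Nat.zero_le (v * v * a)]
      · have h1 := eq_of_dvd hb (by omega) k
        omega
      · have h1 := eq_of_dvd (by omega) (by omega) k
        refine e2 ho hb ?_
        have hp : 0 < a + b := by omega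
        apply Nat.eq_of_mul_eq_mul_left hp
        calc (a + b) * (a * b * (a + 2 * b)) = a * b * (a + b) * (a + 2 * b) := by ring
          _ = d * ((d + 1) * (2 * d + 1)) := e0
          _ = (a + b) * ((a + b + 1) * (2 * (a + b) + 1)) := by rw [h1]
      · have h1 := eq_of_dvd (by omega) (by omega) k
        refine e3 ho hb ?_
        have hp : 0 < a + 2 * b := by omega
        apply Nat.eq_of_mul_eq_mul_left hp
        calc (a + 2 * b) * (a * b * (a + b)) = a * b * (a + b) * (a + 2 * b) := by ring
          _ = d * ((d + 1) * (2 * d + 1)) := e0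
          _ = (a + 2 * b) * ((a + 2 * b + 1) * (2 * (a + 2 * b) + 1)) := by rw [h1]

lemma eq_case {a b c d : ℕ} (h : Tri a b) (h' : Tri c d) (he : ar a b = ar c d)
    (hs : a + 2 * b = c + 2 * d) (hlt : a < c) (h5 : (ar c d).primeFactors.card ≤ 5) :
    ar c d = 210 := by
  have hb := h.hb
  have ha := h.ha
  have hc := h'.ha
  have hd := h'.hb
  have ho := h.odd
  have ho' := h'.odd
  obtain ⟨s, hss⟩ : ∃ s, s = a + 2 * b := ⟨_, rfl⟩
  have hz : ((a : ℤ) - c) * ((s : ℤ) ^ 2 - a ^ 2 - a * c - c ^ 2) = 0 := by
    have hb2 : 2 * (b : ℤ) = s - a := by push_cast [hss]; ring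
    have hd2 : 2 * (d : ℤ) = s - c := by
      have : s = c + 2 * d := by rw [hss, hs]
      push_cast [this]; ring
    have e1 : (a * b * (a + b) : ℕ) = c * d * (c + d) := by
      have hp : 0 < a + 2 * b := by omega
      apply Nat.eq_of_mul_eq_mul_left hp
      calc (a + 2 * b) * (a * b * (a + b)) = ar a b := by unfold ar; ring
        _ = ar c d := he
        _ = (c + 2 * d) * (c * d * (c + d)) := by unfold ar; ring
        _ = (a + 2 * b) * (c * d * (c + d)) := by rw [hs]
    have e2 : (a : ℤ) * b * (a + b) = c * d * (c + d) := by exact_mod_cast e1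
    have e3 : (a : ℤ) * (2 * b) * (2 * a + 2 * b) = c * (2 * d) * (2 * c + 2 * d) := by
      linear_combination 4 * e2
    rw [hb2, hd2] at e3
    linear_combination e3
  have hq : s ^ 2 = a ^ 2 + a * c + c ^ 2 := by
    rcases mul_eq_zero.mp hz with k | k
    · exfalso
      have : (a : ℤ) = c := by linarith
      have : a = c := by exact_mod_cast this
      omega
    · have : (s : ℤ) ^ 2 = a ^ 2 + a * c + c ^ 2 := by linarith
      exact_mod_cast this
  have hslt : s < a + c := by
    by_contra hcon
    have : (a + c) * (a + c) ≤ s * s := Nat.mul_le_mul (by omega) (by omega)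
    nlinarith
  have hsum := card_ar h'
  have c1 : c ∣ ar a b := by
    rw [he]; unfold ar
    exact Dvd.intro (d * (c + d) * (c + 2 * d)) (by ring)
  have c3 : (c + d) ∣ ar a b := by
    rw [he]; unfold ar
    exact Dvd.intro (c * d * (c + 2 * d)) (by ring)
  have w3 : 2 ≤ (c + d).primeFactors.card := by
    by_contra hw
    rcases key h (by omega) (by omega) c3 with k | k | k | k
    · have := Nat.le_of_dvd ha k
      omega
    · have := Nat.le_of_dvd hb k
      omega
    · have := Nat.le_of_dvd (by omega) k
      omega
    · have h1 := eq_of_dvd (by omega) (by omega) k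
      omega
  have w4 : 1 ≤ (c + 2 * d).primeFactors.card := card_pos (by omega)
  have w1 : 1 ≤ c.primeFactors.card := card_pos (by omega)
  rcases Nat.lt_or_ge 1 d with hd1 | hd1
  · exfalso
    have w2 : 1 ≤ d.primeFactors.card := card_pos hd1
    have hc1 : c.primeFactors.card ≤ 1 := by omega
    rcases key h hc hc1 c1 with k | k | k | k
    · have := Nat.le_of_dvd ha k
      omega
    · have := Nat.le_of_dvd hb k
      omega
    · have h1 := eq_of_dvd (by omega) (by omega) k
      -- a + b = c, s = 2 c - a
      have h2 : a = 3 * d := by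
        have h3 : s + a = 2 * c := by omega
        have hz1 : (s : ℤ) = 2 * c - a := by
          have : (s : ℤ) + a = 2 * c := by exact_mod_cast h3
          linarith
        have hq2 : (s : ℤ) ^ 2 = a ^ 2 + a * c + c ^ 2 := by exact_mod_cast hq
        rw [hz1] at hq2
        have h4 : (c : ℤ) * (3 * c - 5 * a) = 0 := by linear_combination hq2
        have hc0 : (c : ℤ) ≠ 0 := by exact_mod_cast hc.ne'
        have h5 : (3 : ℤ) * c - 5 * a = 0 := by
          rcases mul_eq_zero.mp h4 with z | z
          · exact absurd z hc0
          · exact z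
        omega
      have h3 : c = 5 * d := by omega
      have h4 : d ∣ c := Dvd.intro_left 5 h3.symm
      have := Nat.eq_one_of_dvd_coprimes h'.cop h4 (dvd_refl d)
      omega
    · rw [hs] at k
      have k2 : c ∣ 2 * d := (Nat.dvd_add_right (dvd_refl c)).mp k
      have k3 : c.Coprime (2 * d) := by
        have h2 : c.Coprime 2 := by
          rw [Nat.coprime_two_right, Nat.odd_iff]
          exact ho'
        exact h2.mul_right h'.cop
      have := Nat.eq_one_of_dvd_coprimes k3 (dvd_refl c) k2
      omega
  · have hd2 : d = 1 := by omega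
    subst hd2
    have hs2 : s = c + 2 := by omega
    rw [hs2] at hq
    have ha4 : a < 4 := by
      by_contra hcon
      have : 4 ≤ a := by omega
      have h1 : 4 * c ≤ a * c := Nat.mul_le_mul_right c this
      have h2 : 4 * 4 ≤ a * a := Nat.mul_le_mul this this
      nlinarith
    have ha3 : a = 1 ∨ a = 3 := by omega
    rcases ha3 with rfl | rfl
    · nlinarith
    · have : c = 5 := by nlinarith
      subst this
      rfl

/-- two different triangles of the same area with at most five prime factors -/
theorem pair {a b c d : ℕ} (h : Tri a b) (h' : Tri c d) (he : ar a b = ar c d)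
    (hne : (a, b) ≠ (c, d)) (h5 : (ar a b).primeFactors.card ≤ 5) :
    ar a b = 210 ∨ ar a b = 2730 ∨ ar a b = 7980 := by
  have h5' : (ar c d).primeFactors.card ≤ 5 := by rw [← he]; exact h5
  rcases Nat.lt_trichotomy (a + 2 * b) (c + 2 * d) with k | k | k
  · rcases lt_case h h' he k h5' with r | r
    · rw [he, r]; simp
    · rw [he, r]; simp
  · rcases Nat.lt_trichotomy a c with j | j | j
    · rw [he, eq_case h h' he k j h5']; simp
    · exfalso
      apply hne
      have : b = d := by omega
      rw [j, this]
    · rw [eq_case h' h he.symm k.symm j h5]; simp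
  · rcases lt_case h' h he.symm k h5 with r | r
    · rw [r]; simp
    · rw [r]; simp

end Pool.Agent.H83.PT
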