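import Pool.Agent.H83.PT.Basic
import Pool.Agent.H83.PT.Eqs

/-!
Two triangles of the same area, at most five primes.
-/

namespace Pool.Agent.H83.PT

/-- equal `m`: excluded by parity -/
lemma same_c {a b c d : ℕ} (h : Tri a b) (h' : Tri c d) (he : ar a b = ar c d)
    (hs : a + b = c + d) (hlt : a + 2 * b < c + 2 * d) : False := by
  have h1 := h.ha
  have h2 := h'.ha
  have ho := h.odd
  have ho' := h'.odd
  obtain ⟨m, hm⟩ : ∃ m, m = a + b := ⟨_, rfl⟩
  have e1 : a * b * (a + 2 * b) = c * d * (c + 2 * d) := by
    have hp : 0 < a + b := by omega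
    apply Nat.eq_of_mul_eq_mul_left hp
    calc (a + b) * (a * b * (a + 2 * b)) = ar a b := by unfold ar; ring
      _ = ar c d := he
      _ = (c + d) * (c * d * (c + 2 * d)) := by unfold ar; ring
      _ = (a + b) * (c * d * (c + 2 * d)) := by rw [hs]
  -- in the integers
  have hz : ((b : ℤ) - d) * ((m : ℤ) ^ 2 - b ^ 2 - b * d - d ^ 2) = 0 := by
    have ha : (a : ℤ) = m - b := by push_cast [hm]; ring
    have hc : (c : ℤ) = m - d := by
      have : m = c + d := by rw [hm, hs]
      push_cast [this]; ring
    have e2 : (a : ℤ) * b * (a + 2 * b) = c * d * (c + 2 * d) := by exact_mod_cast e1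
    rw [ha, hc] at e2
    linear_combination e2
  rcases mul_eq_zero.mp hz with h3 | h3
  · have : b = d := by
      have : (b : ℤ) = d := by linarith
      exact_mod_cast this
    omega
  · have h4 : m ^ 2 = b ^ 2 + b * d + d ^ 2 := by
      have : (m : ℤ) ^ 2 = b ^ 2 + b * d + d ^ 2 := by linarith
      exact_mod_cast this
    have h5 : (m ^ 2) % 2 = (b ^ 2 + b * d + d ^ 2) % 2 := by rw [h4]
    have h6 : (m + b) % 2 = 1 := by omega
    have h7 : (m + d) % 2 = 1 := by omega
    rcases Nat.mod_two_eq_zero_or_one m with hm0 | hm0
    · have hb0 : b % 2 = 1 := by omega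
      have hd0 : d % 2 = 1 := by omega
      simp [Nat.pow_mod, Nat.add_mod, Nat.mul_mod, hm0, hb0, hd0] at h5
    · have hb0 : b % 2 = 0 := by omega
      have hd0 : d % 2 = 0 := by omega
      simp [Nat.pow_mod, Nat.add_mod, Nat.mul_mod, hm0, hb0, hd0] at h5

lemma mul_big {c d : ℕ} (hc : 3 ≤ c) (hd : 4 ≤ d) : c + 3 * d ≤ c * d + 3 := by
  obtain ⟨u, rfl⟩ := Nat.exists_eq_add_of_le hc
  obtain ⟨v, rfl⟩ := Nat.exists_eq_add_of_le hd
  nlinarith [Nat.zero_le (u * v)]

set_option maxHeartbeats 1000000 in
/-- `a = c + d` -/
lemma case_a {a b c d : ℕ} (h : Tri a b) (h' : Tri c d) (he : ar a b = ar c d)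
    (hs : a = c + d) (hlt : a + 2 * b < c + 2 * d)
    (hw : c = 1 ∨ d = 1 ∨ (c.primeFactors.card ≤ 1 ∧ d.primeFactors.card ≤ 1)) : False := by
  have hb := h.hb
  have ha := h.ha
  have hc := h'.ha
  have hd := h'.hb
  have ho := h.odd
  have ho' := h'.odd
  have h2b : 2 * b < d := by omega
  have e1 : b * (a + b) * (a + 2 * b) = c * d * (c + 2 * d) := by
    apply Nat.eq_of_mul_eq_mul_left ha
    calc a * (b * (a + b) * (a + 2 * b)) = ar a b := by unfold ar; ring
      _ = ar c d := he
      _ = (c + d) * (c * d * (c + 2 * d)) := by unfold ar; ring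
      _ = a * (c * d * (c + 2 * d)) := by rw [← hs]
  rcases Nat.lt_or_ge c 2 with hc1 | hc1
  · have : c = 1 := by omega
    subst this
    subst hs
    rcases Nat.lt_or_ge b 2 with hb1 | hb1
    · have : b = 1 := by omega
      subst this
      have h1 : d ≤ 6 := by nlinarith
      interval_cases d <;> omega
    · obtain ⟨v, rfl⟩ := Nat.exists_eq_add_of_le hb1
      nlinarith [Nat.zero_le (v * d), Nat.zero_le (v * v), Nat.zero_le (v * v * v),
        Nat.zero_le (d * d), Nat.zero_le (v * d * d), Nat.zero_le (v * v * d)]
  rcases hw with hw | hw | ⟨w1, w2⟩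
  · omega
  · omega
  have hc3 : 3 ≤ c := by omega
  have hd4 : 4 ≤ d := by omega
  have c1 : c ∣ ar a b := by
    rw [he]; unfold ar
    exact Dvd.intro (d * (c + d) * (c + 2 * d)) (by ring)
  have d1 : d ∣ ar a b := by
    rw [he]; unfold ar
    exact Dvd.intro (c * (c + d) * (c + 2 * d)) (by ring)
  have hna : ¬ c ∣ a := by
    intro hx
    rw [hs] at hx
    have hx2 : c ∣ d := (Nat.dvd_add_right (dvd_refl c)).mp hx
    have := Nat.eq_one_of_dvd_coprimes h'.cop (dvd_refl c) hx2
    omega
  have hnad : ¬ d ∣ a := by
    intro hx
    rw [hs] at hx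
    have hx2 : d ∣ c := (Nat.dvd_add_left (dvd_refl d)).mp hx
    have := Nat.eq_one_of_dvd_coprimes h'.cop hx2 (dvd_refl d)
    omega
  have hnbd : ¬ d ∣ b := fun hx => by
    have := Nat.le_of_dvd hb hx
    omega
  rcases key h hd w2 d1 with k | k | k | k
  · exact hnad k
  · exact hnbd k
  · -- d ∣ a + b
    have k2 : d ∣ c + b := by
      have : a + b = d + (c + b) := by omega
      rw [this] at k
      exact (Nat.dvd_add_right (dvd_refl d)).mp k
    rcases key h hc w1 c1 with j | j | j | j
    · exact hna j
    · obtain ⟨t, ht⟩ := j
      have k3 : d ∣ c * (1 + t) := by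
        have : c * (1 + t) = c + b := by rw [ht]; ring
        rw [this]; exact k2
      have k4 : d ∣ 1 + t := h'.cop.symm.dvd_of_dvd_mul_left k3
      have k5 := Nat.le_of_dvd (by omega) k4
      have k6 : 3 * t ≤ c * t := Nat.mul_le_mul_right t hc3
      omega
    · have k3 : c * d ∣ a + b := h'.cop.mul_dvd_of_dvd_of_dvd j k
      have k4 := Nat.le_of_dvd (by omega) k3
      have k5 := mul_big hc3 hd4
      omega
    · -- c ∣ a + 2 b, d ∣ c + b
      have j2 : c ∣ d + 2 * b := by
        have : a + 2 * b = c + (d + 2 * b) := by omega
        rw [this] at j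
        exact (Nat.dvd_add_right (dvd_refl c)).mp j
      obtain ⟨t, ht⟩ := k2
      rcases Nat.lt_or_ge t 2 with t2 | t2
      · have t1 : t = 1 := by
          rcases Nat.lt_or_ge t 1 with t0 | t0
          · have : t = 0 := by omega
            subst this
            omega
          · omega
        subst t1
        have hd2 : d = c + b := by omega
        have j3 : c ∣ 3 * b := by
          have : d + 2 * b = c + 3 * b := by omega
          rw [this] at j2
          exact (Nat.dvd_add_right (dvd_refl c)).mp j2
        have e2 : 2 * b * (2 * c + 3 * b) = c * (3 * c + 2 * b) := by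
          have hp : 0 < c + b := by omega
          apply Nat.eq_of_mul_eq_mul_left hp
          have ha2 : a = 2 * c + b := by omega
          rw [ha2, hd2] at e1
          calc (c + b) * (2 * b * (2 * c + 3 * b))
              = b * (2 * c + b + b) * (2 * c + b + 2 * b) := by ring
            _ = c * (c + b) * (c + 2 * (c + b)) := e1
            _ = (c + b) * (c * (3 * c + 2 * b)) := by ring
        obtain ⟨k, hk⟩ := j3
        -- 9 = 2 k (k + 1)
        have e3 : c * c * 9 = c * c * (2 * (k * (k + 1))) := by
          have : 9 * (2 * b * (2 * c + 3 * b)) = 9 * (c * (3 * c + 2 * b)) := by rw [e2]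
          nlinarith [this, hk]
        have hcc : 0 < c * c := by positivity
        have e4 := Nat.eq_of_mul_eq_mul_left hcc e3
        omega
      · -- t ≥ 2
        have q1 : 2 * d ≤ c + b := by
          have := Nat.mul_le_mul_left d t2
          omega
        have q2 : c ≤ d + 2 * b := Nat.le_of_dvd (by omega) j2
        have q3 : c = d + 2 * b := by
          obtain ⟨s, hs2⟩ := j2
          rcases Nat.lt_or_ge s 2 with s2 | s2
          · have : s = 1 := by
              rcases Nat.lt_or_ge s 1 with s0 | s0
              · have : s = 0 := by omega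
                subst this
                omega
              · omega
            subst this
            omega
          · exfalso
            have : c * 2 ≤ c * s := Nat.mul_le_mul_left c s2
            omega
        have q4 : t = 2 := by
          rcases Nat.lt_or_ge t 3 with t3 | t3
          · omega
          · exfalso
            have : d * 3 ≤ d * t := Nat.mul_le_mul_left d t3
            omega
        subst q4
        omega
  · -- d ∣ a + 2 b
    have k2 : d ∣ c + 2 * b := by
      have : a + 2 * b = d + (c + 2 * b) := by omega
      rw [this] at k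
      exact (Nat.dvd_add_right (dvd_refl d)).mp k
    rcases key h hc w1 c1 with j | j | j | j
    · exact hna j
    · obtain ⟨t, ht⟩ := j
      have k3 : d ∣ c * (1 + 2 * t) := by
        have : c * (1 + 2 * t) = c + 2 * b := by rw [ht]; ring
        rw [this]; exact k2
      have k4 : d ∣ 1 + 2 * t := h'.cop.symm.dvd_of_dvd_mul_left k3
      have k5 := Nat.le_of_dvd (by omega) k4
      have k6 : 3 * t ≤ c * t := Nat.mul_le_mul_right t hc3
      omega
    · -- c ∣ a + b, d ∣ c + 2 b
      have j2 : c ∣ d + b := by
        have : a + b = c + (d + b) := by omega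
        rw [this] at j
        exact (Nat.dvd_add_right (dvd_refl c)).mp j
      obtain ⟨t, ht⟩ := k2
      rcases Nat.lt_or_ge t 2 with t2 | t2
      · have t1 : t = 1 := by
          rcases Nat.lt_or_ge t 1 with t0 | t0
          · have : t = 0 := by omega
            subst this
            omega
          · omega
        subst t1
        omega
      · have q1 : 2 * d ≤ c + 2 * b := by
          have := Nat.mul_le_mul_left d t2
          omega
        have q3 : c = d + b := by
          obtain ⟨s, hs2⟩ := j2
          rcases Nat.lt_or_ge s 2 with s2 | s2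
          · have : s = 1 := by
              rcases Nat.lt_or_ge s 1 with s0 | s0
              · have : s = 0 := by omega
                subst this
                omega
              · omega
            subst this
            omega
          · exfalso
            have : c * 2 ≤ c * s := Nat.mul_le_mul_left c s2
            omega
        have q4 : t = 2 := by
          rcases Nat.lt_or_ge t 3 with t3 | t3
          · omega
          · exfalso
            have : d * 3 ≤ d * t := Nat.mul_le_mul_left d t3
            omega
        subst q4
        omega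
    · have k3 : c * d ∣ a + 2 * b := h'.cop.mul_dvd_of_dvd_of_dvd j k
      have k4 := Nat.le_of_dvd (by omega) k3
      have k5 := mul_big hc3 hd4
      omega

set_option maxHeartbeats 1000000 in
/-- `a + 2 b = c + d` -/
lemma case_d {a b c d : ℕ} (h : Tri a b) (h' : Tri c d) (he : ar a b = ar c d)
    (hs : a + 2 * b = c + d)
    (hw : c = 1 ∨ d = 1 ∨ (c.primeFactors.card ≤ 1 ∧ d.primeFactors.card ≤ 1)) : False := by
  have hb := h.hb
  have ha := h.ha
  have hc := h'.ha
  have hd := h'.hb
  have ho := h.odd
  have ho' := h'.odd
  have e1 : a * b * (a + b) = c * d * (c + 2 * d) := by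
    have hp : 0 < a + 2 * b := by omega
    apply Nat.eq_of_mul_eq_mul_left hp
    calc (a + 2 * b) * (a * b * (a + b)) = ar a b := by unfold ar; ring
      _ = ar c d := he
      _ = (c + d) * (c * d * (c + 2 * d)) := by unfold ar; ring
      _ = (a + 2 * b) * (c * d * (c + 2 * d)) := by rw [← hs]
  rcases hw with hw | hw | ⟨w1, w2⟩
  · subst hw
    exact e4 ho hb hs (by linarith)
  · omega
  rcases Nat.lt_or_ge c 2 with hc1 | hc1
  · have : c = 1 := by omega
    subst this
    exact e4 ho hb hs (by linarith)
  have hc3 : 3 ≤ c := by omega
  have c1 : c ∣ ar a b := by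
    rw [he]; unfold ar
    exact Dvd.intro (d * (c + d) * (c + 2 * d)) (by ring)
  have d1 : d ∣ ar a b := by
    rw [he]; unfold ar
    exact Dvd.intro (c * (c + d) * (c + 2 * d)) (by ring)
  rcases Nat.lt_trichotomy c d with hcd | hcd | hcd
  · -- d is the bigger one
    have hnd : ∀ x, 0 < x → x < c + d → d ∣ x → x = d := by
      intro x hx hlt hdx
      obtain ⟨s, hs2⟩ := hdx
      rcases Nat.lt_or_ge s 2 with s2 | s2
      · have : s = 1 := by
          rcases Nat.lt_or_ge s 1 with s0 | s0
          · have : s = 0 := by omega
            subst this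
            omega
          · omega
        subst this
        omega
      · exfalso
        have : d * 2 ≤ d * s := Nat.mul_le_mul_left d s2
        omega
    rcases key h hd w2 d1 with k | k | k | k
    · have := hnd a ha (by omega) k
      omega
    · have := hnd b hb (by omega) k
      omega
    · have h3 := hnd (a + b) (by omega) (by omega) k
      have h4 : c = b := by omega
      subst h4
      rw [← h3] at e1
      have hp : 0 < (a + c) * c := by positivity
      have h5 : (a + c) * c * a = (a + c) * c * (c + 2 * (a + c)) := by
        calc (a + c) * c * a = a * c * (a + c) := by ring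
          _ = c * (a + c) * (c + 2 * (a + c)) := e1
          _ = (a + c) * c * (c + 2 * (a + c)) := by ring
      have h6 := Nat.eq_of_mul_eq_mul_left hp h5
      omega
    · rw [hs] at k
      have k2 : d ∣ c := (Nat.dvd_add_left (dvd_refl d)).mp k
      have := Nat.le_of_dvd hc k2
      omega
  · have := h'.cop
    rw [hcd] at this
    have h3 : d = 1 := (Nat.coprime_self d).mp this
    omega
  · have hnd : ∀ x, 0 < x → x < c + d → c ∣ x → x = c := by
      intro x hx hlt hdx
      obtain ⟨s, hs2⟩ := hdx
      rcases Nat.lt_or_ge s 2 with s2 | s2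
      · have : s = 1 := by
          rcases Nat.lt_or_ge s 1 with s0 | s0
          · have : s = 0 := by omega
            subst this
            omega
          · omega
        subst this
        omega
      · exfalso
        have : c * 2 ≤ c * s := Nat.mul_le_mul_left c s2
        omega
    rcases key h hc w1 c1 with k | k | k | k
    · have h3 := hnd a ha (by omega) k
      have h4 : d = 2 * b := by omega
      subst h3
      subst h4
      have hp : 0 < a * b := by positivity
      have h5 : a * b * (a + b) = a * b * (2 * (a + 2 * (2 * b))) := by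
        calc a * b * (a + b) = a * (2 * b) * (a + 2 * (2 * b)) := e1
          _ = a * b * (2 * (a + 2 * (2 * b))) := by ring
      have h6 := Nat.eq_of_mul_eq_mul_left hp h5
      omega
    · have := hnd b hb (by omega) k
      omega
    · have h3 := hnd (a + b) (by omega) (by omega) k
      have h4 : d = b := by omega
      subst h4
      rw [← h3] at e1
      have hp : 0 < (a + d) * d := by positivity
      have h5 : (a + d) * d * a = (a + d) * d * (a + d + 2 * d) := by
        calc (a + d) * d * a = a * d * (a + d) := by ring
          _ = (a + d) * d * (a + d + 2 * d) := e1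
      have h6 := Nat.eq_of_mul_eq_mul_left hp h5
      omega
    · rw [hs] at k
      have k2 : c ∣ d := (Nat.dvd_add_right (dvd_refl c)).mp k
      have := Nat.le_of_dvd hd k2
      omega

end Pool.Agent.H83.PT
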